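import Mathlib

set_option autoImplicit false

/-!
CENTRE IDENTITY (note 9445 (1)): for commutative groups `G`, `M`, any function `a : G → M`, and
`w, t'` in `G` killed by `N = q^(e+1)`, with `t = q^e t'`:
`∏_{s<N} ∏_{k<N} a(x + t + k(w + s t')) / a(x + k(w + s t')) = (a(x+t)/a(x))^N`.
-/

namespace Pool.MP_d0f9e0_co.AC

open Finset

variable {G : Type*} [AddCommGroup G] {M : Type*} [CommGroup M]

/-- for `0 < k < q^(e+1)` there is `u` with `k u ≡ q^e` modulo `q^(e+1)` -/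
theorem exists_mul_eq (q : ℕ) (hq : q.Prime) (e : ℕ) (k : ℕ) (hk0 : 0 < k)
    (hk : k < q ^ (e + 1)) : ∃ u : ℕ, k * u ≡ q ^ e [MOD q ^ (e + 1)] := by
  -- gcd k (q^(e+1)) = q^i with i ≤ e
  obtain ⟨i, hi, hgi⟩ := (Nat.dvd_prime_pow hq).mp (Nat.gcd_dvd_right k (q ^ (e + 1)))
  have hie : i ≤ e := by
    by_contra hcon
    have hi' : i = e + 1 := by omega
    have h1 : q ^ (e + 1) ∣ k := by
      rw [← hi', ← hgi]
      exact Nat.gcd_dvd_left _ _
    exact absurd (Nat.le_of_dvd hk0 h1) (not_le.mpr hk)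
  have hN : 0 < q ^ (e + 1) := Nat.pow_pos hq.pos
  -- Bezout
  have hb := Nat.gcd_eq_gcd_ab k (q ^ (e + 1))
  rw [hgi] at hb
  refine ⟨((Nat.gcdA k (q ^ (e + 1)) * (q : ℤ) ^ (e - i)) % (q ^ (e + 1) : ℕ)).toNat, ?_⟩
  rw [← Int.natCast_modEq_iff]
  push_cast
  have hq0 : ((q : ℤ) ^ (e + 1)) ≠ 0 := pow_ne_zero _ (by exact_mod_cast hq.ne_zero)
  rw [Int.toNat_of_nonneg (Int.emod_nonneg _ hq0)]
  have h1 : (k : ℤ) * (Nat.gcdA k (q ^ (e + 1)) * (q : ℤ) ^ (e - i)) ≡ (q : ℤ) ^ e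
      [ZMOD (q : ℤ) ^ (e + 1)] := by
    have h2 : (q : ℤ) ^ e = (q : ℤ) ^ i * (q : ℤ) ^ (e - i) := by
      rw [← pow_add]
      congr 1
      omega
    push_cast at hb
    rw [h2, hb]
    apply Int.modEq_iff_dvd.mpr
    refine ⟨Nat.gcdB k (q ^ (e + 1)) * (q : ℤ) ^ (e - i), ?_⟩
    ring
  refine Int.ModEq.trans ?_ h1
  apply Int.ModEq.mul_left
  exact Int.mod_modEq _ _

theorem sum_shift (N : ℕ) (g : ℕ → M) (hg : ∀ n, g (n + N) = g n) (u : ℕ) :
    ∏ s ∈ range N, g (s + u) = ∏ s ∈ range N, g s := by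
  induction u with
  | zero => simp
  | succ u ih =>
    rw [← ih]
    rcases Nat.eq_zero_or_pos N with hN | hN
    · subst hN; simp
    obtain ⟨m, rfl⟩ : ∃ m, N = m + 1 := ⟨N - 1, by omega⟩
    rw [Finset.prod_range_succ, Finset.prod_range_succ']
    have e1 : g (m + (u + 1)) = g (0 + u) := by
      rw [← hg (0 + u)]
      congr 1
      omega
    rw [e1]
    congr 1
    refine Finset.prod_congr rfl fun s _ => ?_
    congr 1
    omega

/-- **Centre identity.** -/
theorem centre (q : ℕ) (hq : q.Prime) (e : ℕ) (a : G → M) (w t' : G)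
    (ht' : (q ^ (e + 1)) • t' = 0) (x : G) :
    ∏ s ∈ range (q ^ (e + 1)), ∏ k ∈ range (q ^ (e + 1)),
      (a (x + (q ^ e) • t' + k • (w + s • t')) / a (x + k • (w + s • t'))) =
      (a (x + (q ^ e) • t') / a x) ^ (q ^ (e + 1)) := by
  have hN : 0 < q ^ (e + 1) := Nat.pow_pos hq.pos
  rw [Finset.prod_comm]
  have h0 : (0 : ℕ) ∈ range (q ^ (e + 1)) := Finset.mem_range.mpr hN
  rw [← Finset.mul_prod_erase _ _ h0]
  have h1 : ∏ s ∈ range (q ^ (e + 1)),
      (a (x + (q ^ e) • t' + 0 • (w + s • t')) / a (x + 0 • (w + s • t'))) =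
      (a (x + (q ^ e) • t') / a x) ^ (q ^ (e + 1)) := by
    simp only [zero_smul, add_zero]
    rw [Finset.prod_const, Finset.card_range]
  rw [h1]
  have h2 : ∀ k ∈ (range (q ^ (e + 1))).erase 0, ∏ s ∈ range (q ^ (e + 1)),
      (a (x + (q ^ e) • t' + k • (w + s • t')) / a (x + k • (w + s • t'))) = 1 := by
    intro k hk
    rw [Finset.mem_erase, Finset.mem_range] at hk
    obtain ⟨u, hu⟩ := exists_mul_eq q hq e k (Nat.pos_of_ne_zero hk.1) hk.2
    rw [Finset.prod_div_distrib, div_eq_one]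
    set g : ℕ → M := fun s => a (x + k • (w + s • t')) with hg
    have hper : ∀ n, g (n + q ^ (e + 1)) = g n := by
      intro n
      rw [hg]
      simp only
      rw [add_smul, ht', add_zero]
    rw [← sum_shift _ g hper u]
    refine Finset.prod_congr rfl fun s _ => ?_
    rw [hg]
    simp only
    congr 1
    have h3 : (k * u) • t' = (q ^ e) • t' := by
      have h4 := hu
      rw [Nat.ModEq] at h4
      have h5 : ∀ n : ℕ, n • t' = (n % q ^ (e + 1)) • t' := by
        intro n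
        conv_lhs => rw [← Nat.div_add_mod n (q ^ (e + 1))]
        rw [add_smul, mul_comm, mul_smul, ht', smul_zero, zero_add]
      rw [h5 (k * u), h4, ← h5]
    rw [smul_add, smul_add, smul_smul, smul_smul, mul_add, add_smul, h3]
    abel
  rw [Finset.prod_congr rfl h2, Finset.prod_const_one, mul_one]

end Pool.MP_d0f9e0_co.AC
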