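import Pool.Agent.Lib.MP_d0f9e0_co.LeafR76

set_option autoImplicit false

/-!
From the near-group data with phases `ζ` (the structure NG of the skeleton, in abstract form)
to the congruence `c (x + z) ^ 2 ≡ c x ^ 2` modulo `1 + m` for `q z = 0`.
-/

namespace Pool.MP_d0f9e0_co.AC

open Pool.MP_d0f9e0_co.KL Finset

/-- Near-group data: abstract form of the structure NG. -/
structure NGd {K : Type*} [Field K] {G : Type*} [AddCommGroup G] [Fintype G]
    (ψ : G → G → K) (c ζ : G → K) (η κ : K) : Prop where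
  bichar : IsBichar ψ
  c_ne : ∀ x, c x ≠ 0
  c_neg : ∀ x, x ≠ 0 → c x * c (-x) = 1
  c_zero : c 0 ^ 2 = η
  ζ_ne : ∀ x, ζ x ≠ 0
  ζ_neg : ∀ x, ζ (-x) = ζ x
  ζ_quad : ∀ x y, ζ (x + y) ^ 2 * ζ 0 ^ 2 = ζ x ^ 2 * ζ y ^ 2 * ψ x y
  κ_sq : κ ^ 2 = (Fintype.card G : K)
  A2 : ∀ p, p ≠ 0 → ∀ y, ∑ a, c a * c (p - a) * (ζ a / ζ (a - p)) * ψ a y =
    κ * ψ p y * c p * c y * c (-y - p) * ζ p * ζ y / (ζ 0 * ζ (y + p))

namespace NGd

variable {K : Type*} [Field K] {Γ₀ : Type*} [LinearOrderedCommGroupWithZero Γ₀]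
  {v : Valuation K Γ₀} {G : Type*} [AddCommGroup G] [Fintype G]
  {ψ : G → G → K} {c ζ : G → K} {η κ : K} (h : NGd ψ c ζ η κ)

include h

/-- the quadratic function -/
theorem Q_add (x y : G) : (ζ (x + y) / ζ 0) ^ 2 =
    (ζ x / ζ 0) ^ 2 * (ζ y / ζ 0) ^ 2 * ψ x y := by
  have h0 := h.ζ_ne 0
  have h1 := h.ζ_quad x y
  field_simp
  exact h1

theorem Q_sq (x : G) : ((ζ x / ζ 0) ^ 2) ^ 2 = ψ x x := by
  have h1 := h.Q_add x (-x)
  rw [add_neg_cancel, h.ζ_neg, div_self (h.ζ_ne 0), one_pow] at h1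
  have h2 : ψ x (-x) * ψ x x = 1 := by
    rw [← h.bichar.add', neg_add_cancel, h.bichar.zero']
  calc ((ζ x / ζ 0) ^ 2) ^ 2 = (ζ x / ζ 0) ^ 2 * (ζ x / ζ 0) ^ 2 * (ψ x (-x) * ψ x x) := by
        rw [h2]; ring
    _ = ((ζ x / ζ 0) ^ 2 * (ζ x / ζ 0) ^ 2 * ψ x (-x)) * ψ x x := by ring
    _ = ψ x x := by rw [← h1, one_mul]

theorem Q_nsmul (x : G) (k : ℕ) : (ζ (k • x) / ζ 0) ^ 2 = ((ζ x / ζ 0) ^ 2) ^ (k ^ 2) := by
  induction k with
  | zero =>
    rw [zero_smul, div_self (h.ζ_ne 0)]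
    norm_num
  | succ k ih =>
    rw [succ_nsmul, h.Q_add, ih, h.bichar.nsmul, ← h.Q_sq]
    ring

theorem val_ψ (x y : G) : v (ψ x y) = 1 := by
  apply val_eq_one_of_pow v _ (Fintype.card G) Fintype.card_ne_zero
  rw [← h.bichar.nsmul, card_nsmul_eq_zero, h.bichar.zero]

theorem val_ζ (x : G) : v (ζ x / ζ 0) = 1 := by
  have h1 : v (ζ x / ζ 0) ^ 4 = 1 := by
    have h2 := congrArg v (h.Q_sq x)
    rw [map_pow, map_pow, h.val_ψ, ← pow_mul] at h2
    exact h2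
  exact (pow_eq_one_iff_of_nonneg zero_le (by norm_num)).mp h1

theorem val_c_zero (hη : v (η - 1) < 1) : v (c 0) = 1 := by
  have h1 : v (c 0 ^ 2) = 1 := by
    rw [h.c_zero]
    have h2 : η = 1 + (η - 1) := by ring
    rw [h2]
    exact v.map_one_add_of_lt hη
  rw [map_pow] at h1
  exact (pow_eq_one_iff_of_nonneg zero_le two_ne_zero).mp h1

theorem val_c_neg (hη : v (η - 1) < 1) (x : G) : v (c x) * v (c (-x)) = 1 := by
  by_cases hx : x = 0
  · subst hx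
    rw [neg_zero, h.val_c_zero hη, one_mul]
  · rw [← map_mul, h.c_neg x hx, map_one]

theorem leafR {q e m : ℕ} {γ : G} (hq : q.Prime) (hq2 : q ≠ 2) (hq0 : (q : K) ≠ 0)
    (hvq : v (q : K) < 1) (hη : v (η - 1) < 1) (hcard : Fintype.card G = m * q ^ (e + 1))
    (hm : ¬ q ∣ m) (hγ : addOrderOf γ = q ^ (e + 1)) :
    LeafR v ψ q e m γ (fun x => c x * (ζ x / ζ 0)) κ := by
  have := Fact.mk hq
  have hζ0 := h.ζ_ne 0
  have hcn := h.val_c_neg hη
  have hc0 := h.val_c_zero hη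
  have hinv : ∀ x, v (c (-x)) = (v (c x))⁻¹ := fun x => eq_inv_of_mul_eq_one_right (hcn x)
  refine ⟨hq, hq2, hq0, hvq, h.bichar, hcard, hm, hγ, ?_, ?_, ?_, ?_⟩
  · intro x
    exact mul_ne_zero (h.c_ne x) (div_ne_zero (h.ζ_ne x) hζ0)
  · intro x
    rw [map_mul, map_mul, h.val_ζ, h.val_ζ, mul_one, mul_one]
    exact hcn x
  · rw [← map_pow, h.κ_sq, hcard, Nat.cast_mul, map_mul, val_natCast_eq_one v q hvq m hm,
      one_mul, Nat.cast_pow]
  · intro p hp _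
    refine ⟨fun a => c a * c (p - a) * (ζ a / ζ (a - p)), ?_, ?_⟩
    · intro a
      have e1 : c a * c (p - a) * (ζ a / ζ (a - p)) * (c (a - p) * (ζ (a - p) / ζ 0)) /
          (c a * (ζ a / ζ 0)) = c (a - p) * c (-(a - p)) := by
        have h1 := h.c_ne a
        have h2 := h.ζ_ne a
        have h3 := h.ζ_ne (a - p)
        have e2 : -(a - p) = p - a := by abel
        rw [e2]
        field_simp
      rw [e1]
      by_cases hap : a - p = 0
      · rw [hap, neg_zero, ← sq, h.c_zero]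
        exact hη
      · rw [h.c_neg _ hap, sub_self, map_zero]
        exact zero_lt_one
    · intro y
      rw [h.A2 p hp y]
      have e1 : κ * ψ p y * c p * c y * c (-y - p) * ζ p * ζ y / (ζ 0 * ζ (y + p)) =
          κ * ψ p y * (c p * (ζ p / ζ 0)) * (c y * (ζ y / ζ 0)) * c (-y - p) /
            (ζ (y + p) / ζ 0) := by
        have h3 := h.ζ_ne (y + p)
        field_simp
      have e2 : -y - p = -(y + p) := by abel
      rw [e1, e2, map_div₀, map_mul, map_mul, map_mul, map_mul, h.val_ψ, h.val_ζ, mul_one,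
        div_one, hinv (y + p), map_mul v (c (y + p)), h.val_ζ, mul_one]
      exact (div_eq_mul_inv _ _).symm

/-- **congruence for the squares** -/
theorem congr_sq {q e m : ℕ} {γ : G} (hq : q.Prime) (hq2 : q ≠ 2) (hq0 : (q : K) ≠ 0)
    (hvq : v (q : K) < 1) (hη : v (η - 1) < 1) (hcard : Fintype.card G = m * q ^ (e + 1))
    (hm : ¬ q ∣ m) (hγ : addOrderOf γ = q ^ (e + 1)) (x z : G) (hz : q • z = 0) :
    v (c (x + z) ^ 2 / c x ^ 2 - 1) < 1 := by
  have hfact := Fact.mk hq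
  have hL := h.leafR hq hq2 hq0 hvq hη hcard hm hγ
  have h1 : v (c (x + z) * (ζ (x + z) / ζ 0) / (c x * (ζ x / ζ 0)) - 1) < 1 :=
    hL.congr x z hz
  set r := c (x + z) * (ζ (x + z) / ζ 0) / (c x * (ζ x / ζ 0)) with hr
  -- the root of unity
  set u := (ζ z / ζ 0) ^ 2 * ψ x z with hu
  have hch := charP_residue v q hvq
  have hupow : u ^ (q ^ 2) = 1 := by
    have e1 : ψ x z ^ q = 1 := by rw [← h.bichar.nsmul', hz, h.bichar.zero']
    have e2 : ((ζ z / ζ 0) ^ 2) ^ (q ^ 2) = 1 := by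
      rw [← h.Q_nsmul, hz, div_self (h.ζ_ne 0), one_pow]
    rw [hu, mul_pow, e2, one_mul, sq q, pow_mul, e1, one_pow]
  have hvu : v u = 1 := val_eq_one_of_pow v u (q ^ 2) (pow_ne_zero 2 hq.ne_zero) hupow
  have hu1 : v (u - 1) < 1 := by
    have e1 : (⟨u, hvu.le⟩ : v.valuationSubring) ^ (q ^ 2) = 1 := Subtype.ext hupow
    have e2 := congrArg (IsLocalRing.residue v.valuationSubring) e1
    rw [map_pow, map_one] at e2
    have e3 : (IsLocalRing.residue v.valuationSubring ⟨u, hvu.le⟩ - 1) ^ (q ^ 2) = 0 := by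
      rw [sub_pow_char_pow, e2, one_pow, sub_self]
    have e4 : IsLocalRing.residue v.valuationSubring (⟨u, hvu.le⟩ - 1) = 0 := by
      rw [map_sub, map_one]
      exact (pow_eq_zero_iff (pow_ne_zero 2 hq.ne_zero)).mp e3
    exact (residue_eq_zero v _).mp e4
  have hvr : v r = 1 := by
    have e1 : r = 1 + (r - 1) := by ring
    rw [e1]
    exact v.map_one_add_of_lt h1
  have key : c (x + z) ^ 2 / c x ^ 2 = r ^ 2 / u := by
    have h2 := h.Q_add x z
    have h3 := h.c_ne x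
    have h4 := h.ζ_ne x
    have h5 := h.ζ_ne z
    have h6 := h.bichar.ne_zero x z
    have h7 := h.ζ_ne 0
    have h8 : r ^ 2 = c (x + z) ^ 2 * (ζ (x + z) / ζ 0) ^ 2 / (c x ^ 2 * (ζ x / ζ 0) ^ 2) := by
      rw [hr]
      ring
    rw [h8, h2, hu]
    field_simp
  rw [key]
  have hu0 : u ≠ 0 := by
    intro h0
    rw [h0, map_zero] at hvu
    exact zero_ne_one hvu
  have e5 : r ^ 2 / u - 1 = ((r - 1) * (r + 1) - (u - 1)) / u := by
    field_simp
    ring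
  rw [e5, map_div₀, hvu, div_one]
  apply v.map_sub_lt _ hu1
  rw [map_mul]
  have e6 : v (r + 1) ≤ 1 := (v.map_add _ _).trans (max_le hvr.le (by rw [map_one]))
  calc v (r - 1) * v (r + 1) ≤ v (r - 1) * 1 := by gcongr
    _ < 1 := by rw [mul_one]; exact h1

end NGd

end Pool.MP_d0f9e0_co.AC
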