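import Pool.Agent.Lib.MP_d0f9e0_co.AC76.NGLeaf
import Pool.Agent.Lib.MP_d0f9e0_co.GH.Defs

set_option autoImplicit false

/-!
The leaf congruence for the structure `GH.NG`.
-/

namespace Pool.MP_d0f9e0_co.AC

open Pool.MP_d0f9e0_co.KL Pool.MP_d0f9e0_co.GH Finset

variable {G : Type*} [AddCommGroup G] [Fintype G] {η : ℝ} {ψ : G → G → ℂ} {c : G → ℝ}
  {z : G → ℂ}

theorem z_ne (h : NG η ψ c z) (x : G) : z x ≠ 0 := by
  intro h0
  have := h.znorm x
  rw [h0, norm_zero] at this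
  exact zero_ne_one this

theorem toNGd (h : NG η ψ c z) :
    NGd ψ (fun x => (c x : ℂ)) z (η : ℂ) ((√η - (√η)⁻¹ : ℝ) : ℂ) := by
  have hη : 0 < η := lt_trans zero_lt_one h.one_lt
  have hs : 0 < √η := Real.sqrt_pos.mpr hη
  have hss : √η * √η = η := Real.mul_self_sqrt hη.le
  refine ⟨⟨h.add, ?_, h.symm, h.nondeg⟩, ?_, ?_, ?_, z_ne h, h.zneg, h.zquad, ?_, ?_⟩
  · intro y
    have h1 := h.add 0 0 y
    rw [add_zero] at h1
    have h2 : ψ 0 y ≠ 0 := by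
      intro h0
      have h3 := h.zquad 0 y
      rw [h0, mul_zero] at h3
      rcases mul_eq_zero.mp h3 with h4 | h4
      · exact z_ne h _ (pow_eq_zero_iff two_ne_zero |>.mp h4)
      · exact z_ne h _ (pow_eq_zero_iff two_ne_zero |>.mp h4)
    have h3 : ψ 0 y * (ψ 0 y - 1) = 0 := by linear_combination -h1
    rcases mul_eq_zero.mp h3 with h4 | h4
    · exact absurd h4 h2
    · exact sub_eq_zero.mp h4
  · intro x
    exact_mod_cast (h.pos x).ne'
  · intro x hx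
    exact_mod_cast h.neg x hx
  · rw [h.zero]
    norm_cast
    rw [sq, hss]
  · norm_cast
    have h1 : (√η - (√η)⁻¹) ^ 2 = η + η⁻¹ - 2 := by
      have h2 : (√η)⁻¹ * (√η)⁻¹ = η⁻¹ := by rw [← mul_inv, hss]
      have h3 : √η * (√η)⁻¹ = 1 := mul_inv_cancel₀ hs.ne'
      calc (√η - (√η)⁻¹) ^ 2 = √η * √η + (√η)⁻¹ * (√η)⁻¹ - 2 * (√η * (√η)⁻¹) := by ring
        _ = _ := by rw [hss, h2, h3]; ring
    rw [h1, ← h.card]
  · intro p hp y
    have h1 := h.A2 p hp y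
    rw [h1]
    ring

theorem val_η {Γ₀ : Type*} [LinearOrderedCommGroupWithZero Γ₀] (v : Valuation ℂ Γ₀)
    (h : NG η ψ c z) {q e m : ℕ} (hvq : v (q : ℂ) < 1)
    (hcard : Fintype.card G = m * q ^ (e + 1)) : v ((η : ℂ) - 1) < 1 := by
  have hη : 0 < η := lt_trans zero_lt_one h.one_lt
  have hη0 : (η : ℂ) ≠ 0 := by exact_mod_cast hη.ne'
  have e1 : (η : ℂ) + (η : ℂ)⁻¹ = ((Fintype.card G + 2 : ℕ) : ℂ) := by
    have := h.card
    push_cast
    have h2 : (η : ℝ) + η⁻¹ = Fintype.card G + 2 := by linarith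
    exact_mod_cast congrArg (fun x : ℝ => (x : ℂ)) h2
  have hT : v ((η : ℂ) + (η : ℂ)⁻¹) ≤ 1 := by
    rw [e1]
    exact val_natCast_le v _
  have hη1 : v (η : ℂ) = 1 := by
    rcases lt_trichotomy (v (η : ℂ)) 1 with h1 | h1 | h1
    · exfalso
      have h2 : 1 < v ((η : ℂ)⁻¹) := by
        rw [map_inv₀]
        exact (one_lt_inv₀ (zero_lt_iff.mpr ((Valuation.ne_zero_iff v).mpr hη0))).mpr h1
      have h3 : v ((η : ℂ) + (η : ℂ)⁻¹) = v ((η : ℂ)⁻¹) :=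
        v.map_add_eq_of_lt_right (h1.trans h2)
      rw [h3] at hT
      exact absurd hT (not_le.mpr h2)
    · exact h1
    · exfalso
      have h2 : v ((η : ℂ)⁻¹) < 1 := by
        rw [map_inv₀]
        exact inv_lt_one_of_one_lt₀ h1
      have h3 : v ((η : ℂ) + (η : ℂ)⁻¹) = v (η : ℂ) :=
        v.map_add_eq_of_lt_left (h2.trans h1)
      rw [h3] at hT
      exact absurd hT (not_le.mpr h1)
  have e2 : ((η : ℂ) - 1) ^ 2 = (η : ℂ) * ((m * q ^ (e + 1) : ℕ) : ℂ) := by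
    have h2 : (η : ℂ) * (η : ℂ)⁻¹ = 1 := mul_inv_cancel₀ hη0
    rw [← hcard]
    have h3 : ((Fintype.card G : ℕ) : ℂ) = (η : ℂ) + (η : ℂ)⁻¹ - 2 := by
      rw [e1]
      push_cast
      ring
    rw [h3]
    linear_combination -h2
  have h4 : v ((η : ℂ) - 1) ^ 2 < 1 := by
    rw [← map_pow, e2, map_mul, hη1, one_mul, Nat.cast_mul, map_mul, Nat.cast_pow, map_pow]
    calc v (m : ℂ) * v (q : ℂ) ^ (e + 1) ≤ 1 * v (q : ℂ) ^ (e + 1) := by
          gcongr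
          exact val_natCast_le v m
      _ = v (q : ℂ) ^ (e + 1) := one_mul _
      _ < 1 := pow_lt_one₀ zero_le hvq (Nat.succ_ne_zero e)
  by_contra hcon
  rw [not_lt] at hcon
  exact absurd (one_le_pow₀ hcon : 1 ≤ v ((η : ℂ) - 1) ^ 2) (not_le.mpr h4)

/-- **Leaf congruence for `NG`**: if the `q`-part of `G` is cyclic, `q` odd, and `v` is a
valuation of `ℂ` over `q`, then `c²` is constant modulo `1 + m` along the elements of order `q`. -/
theorem ng_congr {Γ₀ : Type*} [LinearOrderedCommGroupWithZero Γ₀] (v : Valuation ℂ Γ₀)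
    (h : NG η ψ c z) {q e m : ℕ} {γ : G} (hq : q.Prime) (hq2 : q ≠ 2) (hvq : v (q : ℂ) < 1)
    (hcard : Fintype.card G = m * q ^ (e + 1)) (hm : ¬ q ∣ m)
    (hγ : addOrderOf γ = q ^ (e + 1)) (x y : G) (hy : q • y = 0) :
    v ((c (x + y) : ℂ) ^ 2 / (c x : ℂ) ^ 2 - 1) < 1 :=
  (toNGd h).congr_sq (v := v) hq hq2 (by exact_mod_cast hq.ne_zero) hvq
    (val_η v h hvq hcard) hcard hm hγ x y hy

end Pool.MP_d0f9e0_co.AC
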