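import Pool.Agent.Lib.MP_d0f9e0_co.Slice76

set_option autoImplicit false

/-!
Congruence modulo `1 + m`.
-/

namespace Pool.MP_d0f9e0_co.AC

open Pool.MP_d0f9e0_co.KL Finset

variable {K : Type*} [Field K] {Γ₀ : Type*} [LinearOrderedCommGroupWithZero Γ₀]
  (v : Valuation K Γ₀)

/-- `x ≡ 1` modulo `1 + m`. -/
def Near (x : K) : Prop := v (x - 1) < 1

variable {v}

theorem Near.val {x : K} (h : Near v x) : v x = 1 := by
  have e1 : x = 1 + (x - 1) := by ring
  rw [e1]
  exact v.map_one_add_of_lt h

theorem Near.ne_zero {x : K} (h : Near v x) : x ≠ 0 := by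
  intro h0
  have := h.val
  rw [h0, map_zero] at this
  exact zero_ne_one this

theorem Near.one : Near v 1 := by
  unfold Near
  rw [sub_self, map_zero]
  exact zero_lt_one

theorem Near.mul {x y : K} (hx : Near v x) (hy : Near v y) : Near v (x * y) := by
  unfold Near
  have e1 : x * y - 1 = (x - 1) * y + (y - 1) := by ring
  rw [e1]
  apply v.map_add_lt _ hy
  rw [map_mul, hy.val, mul_one]
  exact hx

theorem Near.inv {x : K} (hx : Near v x) : Near v x⁻¹ := by
  unfold Near
  have h0 := hx.ne_zero
  have e1 : x⁻¹ - 1 = -((x - 1) * x⁻¹) := by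
    field_simp
    ring
  rw [e1, v.map_neg, map_mul, map_inv₀, hx.val, inv_one, mul_one]
  exact hx

theorem Near.div {x y : K} (hx : Near v x) (hy : Near v y) : Near v (x / y) := by
  rw [div_eq_mul_inv]
  exact hx.mul hy.inv

theorem Near.pow {x : K} (hx : Near v x) (n : ℕ) : Near v (x ^ n) := by
  induction n with
  | zero => rw [pow_zero]; exact Near.one
  | succ n ih => rw [pow_succ]; exact ih.mul hx

theorem Near.prod {ι : Type*} (s : Finset ι) (f : ι → K) (h : ∀ i ∈ s, Near v (f i)) :
    Near v (∏ i ∈ s, f i) := by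
  classical
  induction s using Finset.induction_on with
  | empty => rw [Finset.prod_empty]; exact Near.one
  | insert i s hi ih =>
    rw [Finset.prod_insert hi]
    exact (h i (Finset.mem_insert_self i s)).mul
      (ih fun j hj => h j (Finset.mem_insert_of_mem hj))

theorem Near.root {q : ℕ} (hq : q.Prime) (hvq : v (q : K) < 1) {x : K} {n : ℕ}
    (h : Near v (x ^ (q ^ n))) : Near v x := by
  have := Fact.mk hq
  have hch := charP_residue v q hvq
  have h1 : v x = 1 := by
    have h2 := h.val
    rw [map_pow] at h2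
    exact (pow_eq_one_iff_of_nonneg zero_le (pow_ne_zero n hq.ne_zero)).mp h2
  have h3 : IsLocalRing.residue v.valuationSubring
      ((⟨x, h1.le⟩ : v.valuationSubring) ^ (q ^ n) - 1) = 0 := by
    rw [residue_eq_zero]
    exact h
  rw [map_sub, map_pow, map_one] at h3
  have h4 : (IsLocalRing.residue v.valuationSubring ⟨x, h1.le⟩ - 1) ^ (q ^ n) = 0 := by
    rw [sub_pow_char_pow, one_pow]
    exact h3
  have h5 := (pow_eq_zero_iff (pow_ne_zero n hq.ne_zero)).mp h4
  have h6 : IsLocalRing.residue v.valuationSubring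
      ((⟨x, h1.le⟩ : v.valuationSubring) - 1) = 0 := by
    rw [map_sub, map_one]
    exact h5
  exact (residue_eq_zero v _).mp h6

end Pool.MP_d0f9e0_co.AC
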