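import Pool.Agent.Lib.MP_d0f9e0_co.AC76.NGv
import Pool.Agent.Lib.MP_d0f9e0_co.AC76.Centre
import Pool.Agent.Lib.MP_d0f9e0_co.AC76.Near
import Pool.Agent.Lib.MP_d0f9e0_co.SH.Lat
import Pool.Agent.Lib.MP_d0f9e0_co.GH.Grp
import Pool.Agent.Lib.MP_d0f9e0_co.LL54.Leaf

set_option autoImplicit false

/-!
From the leaf lattices to the centre: `c_A(x + t)² ≡ c_A(x)²` modulo `1 + m` for `q t ∈ L`.
-/

namespace Pool.MP_d0f9e0_co.AC

open Pool.MP_d0f9e0_co.KL Pool.MP_d0f9e0_co.LL54 Finset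
open Pool.MP_d0f9e0_co.SH (V Hyp ell det)
open Pool.MP_d0f9e0_co.GH (NG cL)

/-- The square of the class function, as a complex number. -/
noncomputable def csq (S : ℝ → ℝ → ℝ → ℝ) (θ : ℝ) (A : V ≃+ V) (L : AddSubgroup V) (u : V) : ℂ :=
  ((cL S θ A L (QuotientAddGroup.mk u) : ℝ) : ℂ) ^ 2

/-- NG holds for all leaf lattices. -/
def LeafNG (S : ℝ → ℝ → ℝ → ℝ) (θ η : ℝ) (A : V ≃+ V) (L : AddSubgroup V) (q j : ℕ) : Prop :=
  ∀ w, Wt L q j w → ∃ (_ : Fintype (GH.Fx A (Lw L w)))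
    (ψ : GH.Fx A (Lw L w) → GH.Fx A (Lw L w) → ℂ) (z : GH.Fx A (Lw L w) → ℂ),
    NG η ψ (fun x : GH.Fx A (Lw L w) => cL S θ A (Lw L w) x) z

section

variable {Γ₀ : Type*} [LinearOrderedCommGroupWithZero Γ₀] (v : Valuation ℂ Γ₀)
  {S : ℝ → ℝ → ℝ → ℝ} (hS : SH.DS S) {θ η : ℝ} (hθ : Irrational θ) {A : V ≃+ V}
  (hA : SH.Good θ A η) {L : AddSubgroup V} (hL : SH.Lat L) {q j : ℕ} {T : ℤ}
  (h : Amb A L q j T) (hT : η + η⁻¹ = T) (hq2 : q ≠ 2) (hvq : v (q : ℂ) < 1)
  (hNG : LeafNG S θ η A L q j)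

include hS hθ hA in
theorem csq_ne (u : V) : csq S θ A L u ≠ 0 := by
  unfold csq
  have h1 : 0 < cL S θ A L (QuotientAddGroup.mk u) := SH.cl_pos hS hθ hA.toHyp L _
  exact pow_ne_zero 2 (by exact_mod_cast h1.ne')

include hL h in
theorem lat_Lw {w : V} (hw : Wt L q j w) : SH.Lat (Lw L w) := by
  obtain ⟨N, hN, hNp⟩ := hL.disc
  refine ⟨⟨N * q ^ j, Nat.mul_pos hN (Nat.pow_pos h.prime.pos), ?_⟩, ?_⟩
  · intro p hp
    have h1 : (q ^ j) • p ∈ L := by
      obtain ⟨l, hl, k, rfl⟩ := mem_Lw.mp hp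
      rw [smul_add]
      refine L.add_mem (L.nsmul_mem hl _) ?_
      rw [smul_comm]
      exact L.zsmul_mem hw.mem k
    obtain ⟨a, b, ha, hb⟩ := hNp _ h1
    refine ⟨a, b, ?_, ?_⟩
    · rw [← ha, Prod.smul_fst, nsmul_eq_mul]
      push_cast
      ring
    · rw [← hb, Prod.smul_snd, nsmul_eq_mul]
      push_cast
      ring
  · intro p
    obtain ⟨n, hn, hnp⟩ := hL.full p
    exact ⟨n, hn, le_Lw L w hnp⟩

include hS hθ hA hL h in
/-- (D) for a leaf lattice. -/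
theorem leaf_dist {w : V} (hw : Wt L q j w) {p : V} (hp : A p - p ∈ L) :
    ((cL S θ A (Lw L w) (QuotientAddGroup.mk p) : ℝ) : ℂ) ^ 2 =
      ∏ k ∈ range (q ^ j), csq S θ A L (p + k • w) := by
  have hqj : 0 < q ^ j := Nat.pow_pos h.prime.pos
  have h1 := h.sub_mem hw
  have hfix : ∀ k : ℕ, A (p + k • w) - (p + k • w) ∈ L := by
    intro k
    have e : A (p + k • w) - (p + k • w) = (A p - p) + k • (A w - w) := by
      rw [map_add, map_nsmul, smul_sub]
      abel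
    rw [e]
    exact L.add_mem hp (L.nsmul_mem h1 k)
  have key := SH.cl_dist (S := S) hS.cs hθ hA hL (lat_Lw hL h hw) h.stable (le_Lw L w)
    (range (q ^ j)) (fun k => k • w)
    (fun k _ => (Lw L w).nsmul_mem (w_mem_Lw L w) k) ?_ ?_
    (p := p) (fun k _ => (SH.isFix_mk h.stable).mpr (hfix k))
  · unfold csq
    rw [Finset.prod_pow, ← Complex.ofReal_prod]
    congr 2
  · intro l hl
    obtain ⟨l', hl', k, rfl⟩ := mem_Lw.mp hl
    refine ⟨(k % (q ^ j : ℕ)).toNat, ?_, ?_⟩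
    · rw [Finset.mem_range]
      have h2 : 0 ≤ k % ((q ^ j : ℕ) : ℤ) := Int.emod_nonneg _ (by exact_mod_cast hqj.ne')
      have h3 : k % ((q ^ j : ℕ) : ℤ) < ((q ^ j : ℕ) : ℤ) :=
        Int.emod_lt_of_pos _ (by exact_mod_cast hqj)
      omega
    · have h2 : 0 ≤ k % ((q ^ j : ℕ) : ℤ) := Int.emod_nonneg _ (by exact_mod_cast hqj.ne')
      have e : l' + k • w - (k % ((q ^ j : ℕ) : ℤ)).toNat • w =
          l' + (k / ((q ^ j : ℕ) : ℤ)) • ((q ^ j) • w) := by
        have h4 : (k % ((q ^ j : ℕ) : ℤ)).toNat • w = (k % ((q ^ j : ℕ) : ℤ)) • w := by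
          rw [← natCast_zsmul, Int.toNat_of_nonneg h2]
        rw [h4, ← natCast_zsmul, smul_smul]
        have h5 : k • w = (k % ((q ^ j : ℕ) : ℤ)) • w +
            (k / ((q ^ j : ℕ) : ℤ) * ((q ^ j : ℕ) : ℤ)) • w := by
          rw [← add_smul]
          congr 1
          have := Int.emod_add_mul_ediv k ((q ^ j : ℕ) : ℤ)
          linarith
        rw [h5]
        abel
      rw [e]
      exact L.add_mem hl' (L.zsmul_mem hw.mem _)
  · intro a ha b hb hab
    rw [Finset.mem_range] at ha hb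
    have e : (a • w - b • w : V) = ((a : ℤ) - (b : ℤ)) • w := by
      rw [sub_smul, natCast_zsmul, natCast_zsmul]
    rw [e] at hab
    have h2 := hw.dvd h.prime h.hj hab
    have h3 : ((a : ℤ) - b) = 0 := by
      apply Int.eq_zero_of_abs_lt_dvd h2
      rw [abs_lt]
      constructor <;> omega
    omega

include hS hθ hA hL h hT hq2 hvq hNG in
/-- the product over the leaf subgroup is invariant modulo `1 + m` -/
theorem leaf_near {w : V} (hw : Wt L q j w) {p t : V} (hp : A p - p ∈ L) (ht : q • t ∈ L) :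
    Near v ((∏ k ∈ range (q ^ j), csq S θ A L (p + t + k • w)) /
      ∏ k ∈ range (q ^ j), csq S θ A L (p + k • w)) := by
  have hst : GH.Stb A (Lw L w) := h.stable_Lw hw
  have htA : A t - t ∈ L := h.fix_of_smul_mem ht
  have hpt : A (p + t) - (p + t) ∈ L := by
    have e : A (p + t) - (p + t) = (A p - p) + (A t - t) := by rw [map_add]; abel
    rw [e]
    exact L.add_mem hp htA
  rw [← leaf_dist hS hθ hA hL h hw hpt, ← leaf_dist hS hθ hA hL h hw hp]
  obtain ⟨hfin, ψ, z, hng⟩ := hNG w hw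
  obtain ⟨m, hm, hmq⟩ := h.trace_eq hw
  obtain ⟨g, hg, hgo⟩ := h.exists_gen hw
  have hj : j ≠ 0 := h.hj
  obtain ⟨e, he⟩ : ∃ e, 2 * j = e + 1 := ⟨2 * j - 1, by omega⟩
  rw [he] at hm hgo
  -- the cardinality
  have hcard0 : ((Fintype.card (GH.Fx A (Lw L w)) : ℤ)) = m * (q : ℤ) ^ (e + 1) := by
    have h1 := hng.card
    have h2 : (Fintype.card (GH.Fx A (Lw L w)) : ℝ) = ((T - 2 : ℤ) : ℝ) := by
      rw [h1]
      push_cast
      rw [← hT]
    rw [hm] at h2
    exact_mod_cast h2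
  have hm0 : 0 ≤ m := by
    by_contra hcon
    rw [not_le] at hcon
    have h1 : (0 : ℤ) < (q : ℤ) ^ (e + 1) := pow_pos (by exact_mod_cast h.prime.pos) _
    have h2 : m * (q : ℤ) ^ (e + 1) < 0 := mul_neg_of_neg_of_pos hcon h1
    rw [← hcard0] at h2
    omega
  obtain ⟨m', rfl⟩ := Int.eq_ofNat_of_zero_le hm0
  have hcard : Fintype.card (GH.Fx A (Lw L w)) = m' * q ^ (e + 1) := by exact_mod_cast hcard0
  have hmq' : ¬ q ∣ m' := fun hd => hmq (by exact_mod_cast hd)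
  have hxm : (QuotientAddGroup.mk p : V ⧸ Lw L w) ∈ GH.Fx A (Lw L w) :=
    (GH.mem_Fx hst p).mpr (le_Lw L w hp)
  have hym : (QuotientAddGroup.mk t : V ⧸ Lw L w) ∈ GH.Fx A (Lw L w) :=
    (GH.mem_Fx hst t).mpr (le_Lw L w htA)
  have hgm : (QuotientAddGroup.mk g : V ⧸ Lw L w) ∈ GH.Fx A (Lw L w) :=
    (GH.mem_Fx hst g).mpr hg
  have hγ : addOrderOf (⟨QuotientAddGroup.mk g, hgm⟩ : GH.Fx A (Lw L w)) = q ^ (e + 1) := by
    rw [← AddSubgroup.addOrderOf_coe]
    exact hgo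
  have hy : q • (⟨QuotientAddGroup.mk t, hym⟩ : GH.Fx A (Lw L w)) = 0 := by
    apply Subtype.ext
    show q • (QuotientAddGroup.mk t : V ⧸ Lw L w) = 0
    rw [← QuotientAddGroup.mk_nsmul, QuotientAddGroup.eq_zero_iff]
    exact le_Lw L w ht
  have key := ng_congr v hng h.prime hq2 hvq hcard hmq' hγ ⟨QuotientAddGroup.mk p, hxm⟩
    ⟨QuotientAddGroup.mk t, hym⟩ hy
  exact key

include hS hθ hA hL h hT hq2 hvq hNG in
theorem shift_one {e f : V} (he : e ∈ L) (hf : f ∈ L)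
    (hprim : ∀ s : ℕ, ¬ ∃ r ∈ L, f + s • e = q • r) {p : V} (hp : A p - p ∈ L) :
    Near v (csq S θ A L (p + (q : ℚ)⁻¹ • e) / csq S θ A L p) := by
  obtain ⟨i, hi⟩ := Nat.exists_eq_succ_of_ne_zero h.hj
  have hq0 : (q : ℚ) ≠ 0 := by exact_mod_cast h.prime.ne_zero
  have hqi : ((q : ℚ) ^ (i + 1)) ≠ 0 := pow_ne_zero _ hq0
  set e' : V := ((q : ℚ) ^ (i + 1))⁻¹ • e with he'
  set w : V := ((q : ℚ) ^ (i + 1))⁻¹ • f with hw
  have hqe : (q ^ (i + 1)) • e' = e := by
    rw [he', ← Nat.cast_smul_eq_nsmul ℚ, smul_smul]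
    push_cast
    rw [mul_inv_cancel₀ hqi, one_smul]
  have hqw : (q ^ (i + 1)) • w = f := by
    rw [hw, ← Nat.cast_smul_eq_nsmul ℚ, smul_smul]
    push_cast
    rw [mul_inv_cancel₀ hqi, one_smul]
  have ht : (q ^ i) • e' = (q : ℚ)⁻¹ • e := by
    rw [he', ← Nat.cast_smul_eq_nsmul ℚ, smul_smul]
    congr 1
    push_cast
    rw [pow_succ]
    field_simp
  have hWt : ∀ s : ℕ, Wt L q j (w + s • e') := by
    intro s
    rw [hi]
    have e1 : (q ^ (i + 1)) • (w + s • e') = f + s • e := by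
      rw [smul_add, hqw, smul_comm, hqe]
    refine ⟨?_, ?_⟩
    · rw [Nat.succ_eq_add_one, e1]
      exact L.add_mem hf (L.nsmul_mem he s)
    · rw [Nat.succ_eq_add_one, e1]
      exact hprim s
  have hqt : q • ((q : ℚ)⁻¹ • e) ∈ L := by
    rw [← Nat.cast_smul_eq_nsmul ℚ, smul_smul, mul_inv_cancel₀ hq0, one_smul]
    exact he
  -- the function with values in the units
  set a : (V ⧸ L) → ℂˣ := fun x =>
    Units.mk0 (((cL S θ A L x : ℝ) : ℂ) ^ 2)
      (pow_ne_zero 2 (by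
        have h1 : 0 < cL S θ A L x := SH.cl_pos hS hθ hA.toHyp L _
        exact_mod_cast h1.ne')) with ha
  have hper : (q ^ (i + 1)) • (QuotientAddGroup.mk e' : V ⧸ L) = 0 := by
    rw [← QuotientAddGroup.mk_nsmul, QuotientAddGroup.eq_zero_iff, hqe]
    exact he
  have hc := centre q h.prime i a (QuotientAddGroup.mk w) (QuotientAddGroup.mk e') hper
    (QuotientAddGroup.mk p)
  have hc2 := congrArg (fun u : ℂˣ => (u : ℂ)) hc
  simp only [Units.coe_prod, Units.val_pow_eq_pow_val, Units.val_div_eq_div_val] at hc2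
  have hav : ∀ u : V, ((a (QuotientAddGroup.mk u) : ℂˣ) : ℂ) = csq S θ A L u := fun u => rfl
  have e1 : (QuotientAddGroup.mk p : V ⧸ L) + (q ^ i) • (QuotientAddGroup.mk e' : V ⧸ L) =
      QuotientAddGroup.mk (p + (q : ℚ)⁻¹ • e) := by
    rw [← QuotientAddGroup.mk_nsmul, ht, ← QuotientAddGroup.mk_add]
  have e2 : ∀ s k : ℕ, k • ((QuotientAddGroup.mk w : V ⧸ L) +
      s • (QuotientAddGroup.mk e' : V ⧸ L)) = QuotientAddGroup.mk (k • (w + s • e')) := by
    intro s k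
    rw [← QuotientAddGroup.mk_nsmul, ← QuotientAddGroup.mk_add, ← QuotientAddGroup.mk_nsmul]
  simp only [e1, e2, ← QuotientAddGroup.mk_add, hav] at hc2
  apply Near.root h.prime hvq (n := i + 1)
  rw [← hc2]
  apply Near.prod
  intro s _
  rw [Finset.prod_div_distrib]
  have h3 := leaf_near v hS hθ hA hL h hT hq2 hvq hNG (hWt s) hp hqt
  rw [hi] at h3
  exact h3

include hS hθ hA hL h hT hq2 hvq hNG in
/-- **Centre congruence.** -/
theorem shift {e f : V} (hspan : ∀ l ∈ L, ∃ a b : ℤ, l = a • e + b • f) (he : e ∈ L) (hf : f ∈ L)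
    (hprim1 : ∀ s : ℕ, ¬ ∃ r ∈ L, f + s • e = q • r)
    (hprim2 : ∀ s : ℕ, ¬ ∃ r ∈ L, e + s • f = q • r) {p t : V} (hp : A p - p ∈ L)
    (ht : q • t ∈ L) :
    Near v (csq S θ A L (p + t) / csq S θ A L p) := by
  have hq0 : (q : ℚ) ≠ 0 := by exact_mod_cast h.prime.ne_zero
  have hne := csq_ne (L := L) hS hθ hA
  -- the subgroup of good shifts
  set H : AddSubgroup V :=
    { carrier := {u | A u - u ∈ L ∧ ∀ p, A p - p ∈ L →
        Near v (csq S θ A L (p + u) / csq S θ A L p)}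
      zero_mem' := by
        refine ⟨by rw [map_zero, sub_zero]; exact L.zero_mem, fun p _ => ?_⟩
        rw [add_zero, div_self (hne p)]
        exact Near.one
      add_mem' := by
        rintro a b ⟨ha1, ha2⟩ ⟨hb1, hb2⟩
        refine ⟨?_, fun p hp => ?_⟩
        · have e : A (a + b) - (a + b) = (A a - a) + (A b - b) := by rw [map_add]; abel
          rw [e]
          exact L.add_mem ha1 hb1
        · have h1 := ha2 p hp
          have h2 := hb2 (p + a) (by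
            have e : A (p + a) - (p + a) = (A p - p) + (A a - a) := by rw [map_add]; abel
            rw [e]
            exact L.add_mem hp ha1)
          have e : csq S θ A L (p + (a + b)) / csq S θ A L p =
              csq S θ A L (p + a + b) / csq S θ A L (p + a) *
                (csq S θ A L (p + a) / csq S θ A L p) := by
            rw [div_mul_div_cancel₀ (hne _), add_assoc]
          rw [e]
          exact h2.mul h1
      neg_mem' := by
        rintro a ⟨ha1, ha2⟩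
        have hna : A (-a) - (-a) ∈ L := by
          have e : A (-a) - (-a) = -(A a - a) := by rw [map_neg]; abel
          rw [e]
          exact L.neg_mem ha1
        refine ⟨hna, fun p hp => ?_⟩
        have h1 := ha2 (p + -a) (by
          have e : A (p + -a) - (p + -a) = (A p - p) + (A (-a) - (-a)) := by
            rw [map_add]; abel
          rw [e]
          exact L.add_mem hp hna)
        have h2 := h1.inv
        rw [inv_div, neg_add_cancel_right] at h2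
        exact h2 } with hH
  have hfixe : ∀ l ∈ L, A ((q : ℚ)⁻¹ • l) - (q : ℚ)⁻¹ • l ∈ L := by
    intro l hl
    apply h.fix_of_smul_mem
    rw [← Nat.cast_smul_eq_nsmul ℚ, smul_smul, mul_inv_cancel₀ hq0, one_smul]
    exact hl
  have heH : (q : ℚ)⁻¹ • e ∈ H :=
    ⟨hfixe e he, fun p hp => shift_one v hS hθ hA hL h hT hq2 hvq hNG he hf hprim1 hp⟩
  have hfH : (q : ℚ)⁻¹ • f ∈ H :=
    ⟨hfixe f hf, fun p hp => shift_one v hS hθ hA hL h hT hq2 hvq hNG hf he hprim2 hp⟩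
  obtain ⟨a, b, hab⟩ := hspan _ ht
  have e1 : t = a • ((q : ℚ)⁻¹ • e) + b • ((q : ℚ)⁻¹ • f) := by
    have e2 : t = (q : ℚ)⁻¹ • (q • t) := by
      rw [← Nat.cast_smul_eq_nsmul ℚ, smul_smul, inv_mul_cancel₀ hq0, one_smul]
    rw [e2, hab, smul_add, smul_comm (q : ℚ)⁻¹ a, smul_comm (q : ℚ)⁻¹ b]
  have htH : t ∈ H := by
    rw [e1]
    exact H.add_mem (H.zsmul_mem heH a) (H.zsmul_mem hfH b)
  exact htH.2 p hp

end

end Pool.MP_d0f9e0_co.AC
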